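import Pool.Agent.Y703.XK.Stm
import Pool.Agent.Y145.CT.Cnt9

/-!
# Project XK, jobs NS and LOW (helper550): translation between elements and sets of primes
-/

set_option autoImplicit false

open scoped Classical

namespace Pool.Agent.Y550.XK.NS

open Finset
open Pool.Agent.Y692.QS (Ei nr)
open Pool.Agent.Y715.T.Rec (cs)
open Pool.Agent.Y715.T.RecG (Pq)
open Pool.Agent.Y699.E (nrm nrm_cast nrm_mul nrm_one QB mem_QB PD mem_PD PS PS_prod fin_pd
  norm_le_of_dvd)
open Pool.Agent.Y703.CT (ClsE GoodE ppr)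
open Pool.Agent.Y703.XK

theorem ppr_eq {n : Ei} (hn : n ≠ 0) : ppr n = PD n := by
  ext π
  unfold ppr
  rw [dif_pos (fin_pd hn), Set.Finite.mem_toFinset, mem_PD hn]
  rfl

theorem nrm_prod (S : Finset Ei) : nrm (∏ π ∈ S, π) = ∏ π ∈ S, nrm π := by
  induction S using Finset.induction_on with
  | empty => rw [Finset.prod_empty, Finset.prod_empty, nrm_one]
  | insert a S ha ih => rw [Finset.prod_insert ha, Finset.prod_insert ha, nrm_mul, ih]

theorem mod_iff (D : Ei) : (9 : ℤ) ∣ nr D - 1 ↔ nrm D % 9 = 1 := by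
  rw [← nrm_cast]
  omega

theorem cls_iff {D : Ei} (hD : PS D) : ClsE D ↔ Cl (PD D) := by
  have h1 : ∏ π ∈ PD D, nrm π = nrm D := by rw [← nrm_prod, hD.prod]
  unfold ClsE Cl
  rw [h1, mod_iff]
  constructor
  · rintro ⟨-, -, h⟩
    exact ⟨fun π hπ => ((mem_PD hD.ne).1 hπ).1, h⟩
  · rintro ⟨-, h⟩
    exact ⟨hD.prm, hD.sqf, h⟩

theorem card_eq (X : ℕ) (Q : Finset Ei → Prop) :
    {D : Ei | nr D ≤ X ∧ ClsE D ∧ Q (PD D)}.ncard = ((SS X).filter Q).card := by
  have h1 : {D : Ei | nr D ≤ X ∧ ClsE D ∧ Q (PD D)} =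
      (fun S : Finset Ei => ∏ π ∈ S, π) '' (((SS X).filter Q : Finset (Finset Ei)) :
        Set (Finset Ei)) := by
    ext D
    constructor
    · rintro ⟨h1, h2, h3⟩
      have hD : PS D := ⟨h2.1, h2.2.1⟩
      have h4 : nrm D ≤ X := by
        rw [← nrm_cast] at h1
        exact_mod_cast h1
      refine ⟨PD D, ?_, hD.prod⟩
      rw [Finset.mem_coe, Finset.mem_filter]
      refine ⟨?_, h3⟩
      unfold SS
      rw [Finset.mem_filter, Finset.mem_powerset]
      refine ⟨fun π hπ => ?_, (cls_iff hD).1 h2, ?_⟩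
      · obtain ⟨h5, h6⟩ := (mem_PD hD.ne).1 hπ
        exact mem_QB.2 ⟨(norm_le_of_dvd hD.ne h6).trans h4, h5⟩
      · rw [← nrm_prod, hD.prod]
        exact h4
    · rintro ⟨S, hS, rfl⟩
      rw [Finset.mem_coe, Finset.mem_filter] at hS
      obtain ⟨h1, h2⟩ := hS
      unfold SS at h1
      rw [Finset.mem_filter] at h1
      obtain ⟨-, h3, h4⟩ := h1
      obtain ⟨h5, h6⟩ := PS_prod h3.1
      refine ⟨?_, (cls_iff h5).2 (by rw [h6]; exact h3), by rw [h6]; exact h2⟩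
      rw [← nrm_cast, nrm_prod]
      exact_mod_cast h4
  rw [h1, Set.ncard_image_of_injOn, Set.ncard_coe_finset]
  intro S hS S' hS' h
  rw [Finset.mem_coe, Finset.mem_filter] at hS hS'
  have e1 : ∀ π ∈ S, Pq π := by
    have := hS.1
    unfold SS at this
    exact (Finset.mem_filter.1 this).2.1.1
  have e2 : ∀ π ∈ S', Pq π := by
    have := hS'.1
    unfold SS at this
    exact (Finset.mem_filter.1 this).2.1.1
  rw [← (PS_prod e1).2, ← (PS_prod e2).2]
  exact congrArg PD h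

theorem card_cls (X : ℕ) : {D : Ei | nr D ≤ X ∧ ClsE D}.ncard = (SS X).card := by
  have h := card_eq X (fun _ => True)
  rw [Finset.filter_true] at h
  rw [← h]
  congr 1
  ext D
  simp only [Set.mem_ofPred_eq, and_true]

theorem card_good (X : ℕ) : {D : Ei | nr D ≤ X ∧ GoodE D}.ncard = ((SS X).filter Gd).card := by
  rw [← card_eq X Gd]
  congr 1
  ext D
  constructor
  · rintro ⟨h1, h2, h3, h4, h5⟩
    refine ⟨h1, ⟨h2, h3, h4⟩, ?_⟩
    rw [ppr_eq (PS.ne ⟨h2, h3⟩)] at h5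
    exact h5
  · rintro ⟨h1, ⟨h2, h3, h4⟩, h5⟩
    refine ⟨h1, h2, h3, h4, ?_⟩
    rw [ppr_eq (PS.ne ⟨h2, h3⟩)]
    exact h5

theorem t_NS : S_NS := by
  intro h
  unfold S_DQ at h
  unfold S_DEN
  refine h.congr fun X => ?_
  rw [card_cls, card_good]

theorem t_LOW : S_LOW := by
  obtain ⟨c, hc, X₀, h⟩ := Pool.Agent.Y145.CT9.cnt9
  refine ⟨c, X₀, hc, fun X hX => ?_⟩
  have := h X hX
  rw [card_cls] at this
  exact this

end Pool.Agent.Y550.XK.NS
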